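import Pool.Agent.Helper848.Kast

namespace Pool.Agent.Results.MP_bab3d5_co.HoleDivFour

open Finset Matrix Pool.Agent.Helper848

/-! ### linear algebra -/

theorem four_dvd_gram {ι κ : Type*} [Fintype ι] [Fintype κ] [DecidableEq κ] [Nonempty κ]
    (K : Matrix ι κ ℤ) (h : ∀ i, 2 ∣ ∑ x, K i x) : (4 : ℤ) ∣ (Kᵀ * K).det := by
  classical
  obtain ⟨x0⟩ := ‹Nonempty κ›
  choose v hv using h
  let U : Matrix κ κ ℤ := (1 : Matrix κ κ ℤ).updateCol x0 (fun _ => 1)
  let V : Matrix ι κ ℤ := K.updateCol x0 v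
  let D : Matrix κ κ ℤ := Matrix.diagonal (fun x => if x = x0 then 2 else 1)
  have hU : U.det = 1 := by
    have h1 := Matrix.det_updateCol_sum (1 : Matrix κ κ ℤ) x0 (fun _ => (1 : ℤ))
    have h2 : (fun k : κ => ∑ l, (1 : ℤ) • (1 : Matrix κ κ ℤ) k l) = fun _ => 1 := by
      funext k
      simp [Matrix.one_apply]
    rw [h2] at h1
    simpa [U] using h1
  have hKU : K * U = V * D := by
    ext i x
    rw [Matrix.mul_apply, Matrix.mul_diagonal]
    by_cases hx : x = x0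
    · subst hx
      simp only [U, V, Matrix.updateCol_self, mul_one, if_true]
      rw [hv i]; ring
    · simp only [U, V, Matrix.updateCol_ne hx, if_neg hx, mul_one]
      rw [Finset.sum_eq_single x]
      · simp
      · intro y _ hy; simp [hy]
      · simp
  have hD : D.det = 2 := by
    simp only [D, Matrix.det_diagonal]
    rw [Finset.prod_ite_eq' Finset.univ x0 (fun _ => (2 : ℤ))]
    simp
  have h3 : (Kᵀ * K).det = (Uᵀ * (Kᵀ * K) * U).det := by
    rw [Matrix.det_mul, Matrix.det_mul, Matrix.det_transpose, hU]; ring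
  have h4 : Uᵀ * (Kᵀ * K) * U = Dᵀ * (Vᵀ * V) * D := by
    have : Uᵀ * (Kᵀ * K) * U = (K * U)ᵀ * (K * U) := by
      rw [Matrix.transpose_mul]; simp only [Matrix.mul_assoc]
    rw [this, hKU, Matrix.transpose_mul]; simp only [Matrix.mul_assoc]
  rw [h3, h4, Matrix.det_mul, Matrix.det_mul, Matrix.det_transpose, hD]
  exact ⟨(Vᵀ * V).det, by ring⟩

theorem two_dvd_det {κ : Type*} [Fintype κ] [DecidableEq κ] (G : Matrix κ κ ℤ)
    (hs : ∀ x y, G x y = G y x) (hd : ∀ x, 2 ∣ G x x) (hc : Odd (Fintype.card κ)) :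
    (2 : ℤ) ∣ G.det := by
  have h : ((G.det : ℤ) : ZMod 2) = 0 := by
    rw [Matrix.det_apply, Int.cast_sum]
    refine Finset.sum_involution (fun σ _ => σ⁻¹) ?_ ?_ ?_ ?_
    · intro σ _
      have h1 : ∀ τ : Equiv.Perm κ, (((Equiv.Perm.sign τ • ∏ i, G (τ i) i : ℤ)) : ZMod 2) =
          ((∏ i, G (τ i) i : ℤ) : ZMod 2) := by
        intro τ
        rcases Int.units_eq_one_or (Equiv.Perm.sign τ) with h | h
        · rw [h, one_smul]
        · rw [h, Units.neg_smul, one_smul, Int.cast_neg, ZMod.neg_eq_self_mod_two]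
      rw [h1, h1]
      have h2 : ∏ i, G (σ⁻¹ i) i = ∏ i, G (σ i) i := by
        rw [← Equiv.prod_comp σ (fun i => G (σ⁻¹ i) i)]
        refine Finset.prod_congr rfl fun i _ => ?_
        rw [show σ⁻¹ (σ i) = i from by simp, hs]
      rw [h2]
      exact CharTwo.add_self_eq_zero _
    · intro σ _ hσ heq
      apply hσ
      -- an involution of an odd set has a fixed point
      have hfix : ∃ i, σ i = i := by
        refine Equiv.Perm.exists_fixed_point_of_prime (p := 2) (n := 1) ?_ ?_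
        · intro hdvd
          exact (Nat.not_even_iff_odd.mpr hc) (even_iff_two_dvd.mpr hdvd)
        · rw [pow_one, pow_two]
          nth_rewrite 1 [← heq]
          simp
      obtain ⟨i, hi⟩ := hfix
      obtain ⟨k, hk⟩ := hd i
      have hz : ((∏ i, G (σ i) i : ℤ) : ZMod 2) = 0 := by
        rw [Int.cast_prod]
        apply Finset.prod_eq_zero (Finset.mem_univ i)
        rw [hi, hk]
        push_cast
        rw [show (2 : ZMod 2) = 0 from rfl, zero_mul]
      rcases Int.units_eq_one_or (Equiv.Perm.sign σ) with h | h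
      · rw [h, one_smul, hz]
      · rw [h, Units.neg_smul, one_smul, Int.cast_neg, hz, neg_zero]
    · intro σ _; exact Finset.mem_univ _
    · intro σ _; exact inv_inv σ
  exact (ZMod.intCast_zmod_eq_zero_iff_dvd _ 2).mp h

/-! ### signs around a unit square -/

theorem above_step (R : Finset (ℤ × ℤ)) (x y : ℤ) (h : (x + 1, y + 1) ∈ R) :
    above R (x, y) = above R (x + 1, y + 1) + 1 := by
  unfold above
  rw [show (R.filter fun q => q.2 - q.1 = (x, y).2 - (x, y).1 ∧ (x, y).1 < q.1) =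
    insert (x + 1, y + 1) (R.filter fun q => q.2 - q.1 = (x + 1, y + 1).2 - (x + 1, y + 1).1 ∧
      (x + 1, y + 1).1 < q.1) from ?_, Finset.card_insert_of_notMem ?_]
  · simp
  · ext ⟨a, b⟩
    simp only [mem_filter, mem_insert, Prod.mk.injEq]
    constructor
    · rintro ⟨h1, h2, h3⟩
      by_cases hc : a = x + 1
      · left; omega
      · right; exact ⟨h1, by omega, by omega⟩
    · rintro (⟨rfl, rfl⟩ | ⟨h1, h2, h3⟩)
      · exact ⟨h, by omega, by omega⟩
      · exact ⟨h1, by omega, by omega⟩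

theorem below_step (R : Finset (ℤ × ℤ)) (x y : ℤ) (h : (x, y) ∈ R) :
    below R (x + 1, y + 1) = below R (x, y) + 1 := by
  unfold below
  rw [show (R.filter fun q => q.2 - q.1 = (x + 1, y + 1).2 - (x + 1, y + 1).1 ∧
      q.1 < (x + 1, y + 1).1) =
    insert (x, y) (R.filter fun q => q.2 - q.1 = (x, y).2 - (x, y).1 ∧ q.1 < (x, y).1) from ?_,
    Finset.card_insert_of_notMem ?_]
  · simp
  · ext ⟨a, b⟩
    simp only [mem_filter, mem_insert, Prod.mk.injEq]
    constructor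
    · rintro ⟨h1, h2, h3⟩
      by_cases hc : a = x
      · left; omega
      · right; exact ⟨h1, by omega, by omega⟩
    · rintro (⟨rfl, rfl⟩ | ⟨h1, h2, h3⟩)
      · exact ⟨h, by omega, by omega⟩
      · exact ⟨h1, by omega, by omega⟩

theorem neg_one_cases (n : ℕ) : ((-1 : ℤ)) ^ n = 1 ∨ ((-1 : ℤ)) ^ n = -1 := by
  rcases Nat.even_or_odd n with h | h
  · left; exact h.neg_one_pow
  · right; exact h.neg_one_pow

theorem kast_up (R : Finset (ℤ × ℤ)) (b w : ℤ × ℤ) (h : Adj w b) (h2 : b.2 - b.1 = w.2 - w.1 + 1) :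
    kast R b w = (-1) ^ (above R w + below R b) := by
  unfold kast; rw [if_pos h, if_pos h2]

theorem kast_dn (R : Finset (ℤ × ℤ)) (b w : ℤ × ℤ) (h : Adj w b) (h2 : ¬ b.2 - b.1 = w.2 - w.1 + 1) :
    kast R b w = 1 := by
  unfold kast; rw [if_pos h, if_neg h2]

theorem adj1 (x y : ℤ) : Adj (x, y) (x + 1, y) := Or.inr ⟨rfl, Or.inr rfl⟩
theorem adj2 (x y : ℤ) : Adj (x + 1, y) (x, y) := Or.inr ⟨rfl, Or.inl rfl⟩
theorem adj3 (x y : ℤ) : Adj (x, y) (x, y + 1) := Or.inl ⟨rfl, Or.inr rfl⟩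
theorem adj4 (x y : ℤ) : Adj (x, y + 1) (x, y) := Or.inl ⟨rfl, Or.inl rfl⟩

theorem kast_face_aux (R : Finset (ℤ × ℤ)) (x y : ℤ) (h00 : (x, y) ∈ R)
    (h11 : (x + 1, y + 1) ∈ R) :
    (kast R (x + 1, y) (x, y) * kast R (x + 1, y) (x + 1, y + 1) +
      kast R (x, y + 1) (x, y) * kast R (x, y + 1) (x + 1, y + 1) = 0) ∧
    (kast R (x, y) (x + 1, y) * kast R (x, y) (x, y + 1) +
      kast R (x + 1, y + 1) (x + 1, y) * kast R (x + 1, y + 1) (x, y + 1) = 0) := by
  have ha := above_step R x y h11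
  have hb := below_step R x y h00
  constructor
  · rw [kast_dn R (x + 1, y) (x, y) (adj1 _ _) (by simp only; omega),
      kast_dn R (x + 1, y) (x + 1, y + 1) (adj4 _ _) (by simp only; omega),
      kast_up R (x, y + 1) (x, y) (adj3 _ _) (by simp only; omega),
      kast_up R (x, y + 1) (x + 1, y + 1) (adj2 _ _) (by simp only; omega), ha]
    have h := neg_one_cases (above R (x + 1, y + 1) + below R (x, y + 1))
    rw [show above R (x + 1, y + 1) + 1 + below R (x, y + 1) =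
      (above R (x + 1, y + 1) + below R (x, y + 1)) + 1 from by ring, pow_succ]
    rcases h with h | h <;> rw [h] <;> norm_num
  · rw [kast_up R (x, y) (x + 1, y) (adj2 _ _) (by simp only; omega),
      kast_dn R (x, y) (x, y + 1) (adj4 _ _) (by simp only; omega),
      kast_up R (x + 1, y + 1) (x + 1, y) (adj3 _ _) (by simp only; omega),
      kast_dn R (x + 1, y + 1) (x, y + 1) (adj1 _ _) (by simp only; omega), hb]
    have h := neg_one_cases (above R (x + 1, y) + below R (x, y))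
    rw [show above R (x + 1, y) + (below R (x, y) + 1) =
      (above R (x + 1, y) + below R (x, y)) + 1 from by ring, pow_succ]
    rcases h with h | h <;> rw [h] <;> norm_num

/-- the two whites `w`, `w'` are diagonal neighbours; the two blacks are the other two corners -/
theorem kast_face (R : Finset (ℤ × ℤ)) (x y x' y' : ℤ) (hx : x' = x + 1 ∨ x' = x - 1)
    (hy : y' = y + 1 ∨ y' = y - 1) (h1 : (x, y) ∈ R) (h2 : (x', y') ∈ R) (h3 : (x', y) ∈ R)
    (h4 : (x, y') ∈ R) :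
    kast R (x', y) (x, y) * kast R (x', y) (x', y') +
      kast R (x, y') (x, y) * kast R (x, y') (x', y') = 0 := by
  rcases hx with rfl | rfl <;> rcases hy with rfl | rfl
  · exact (kast_face_aux R x y h1 h2).1
  · have h := (kast_face_aux R x (y - 1) h4 (by rw [sub_add_cancel]; exact h3)).2
    rw [sub_add_cancel] at h
    linarith
  · have h := (kast_face_aux R (x - 1) y h3 (by rw [sub_add_cancel]; exact h4)).2
    rw [sub_add_cancel] at h
    linarith
  · have h := (kast_face_aux R (x - 1) (y - 1) h2 (by rw [sub_add_cancel, sub_add_cancel]; exact h1)).1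
    rw [sub_add_cancel, sub_add_cancel] at h
    linarith

/-- an entry is odd iff the cells are adjacent -/
theorem kast_odd (R : Finset (ℤ × ℤ)) (b w : ℤ × ℤ) (h : Adj w b) : kast R b w % 2 = 1 := by
  unfold kast
  rw [if_pos h]
  split_ifs
  · rcases neg_one_cases (above R w + below R b) with h | h <;> rw [h] <;> norm_num
  · norm_num

theorem kast_sq (R : Finset (ℤ × ℤ)) (b w : ℤ × ℤ) (h : Adj w b) : kast R b w * kast R b w = 1 := by
  unfold kast
  rw [if_pos h]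
  split_ifs
  · rcases neg_one_cases (above R w + below R b) with h | h <;> rw [h] <;> norm_num
  · norm_num

theorem kast_zero (R : Finset (ℤ × ℤ)) (b w : ℤ × ℤ) (h : ¬ Adj w b) : kast R b w = 0 := by
  unfold kast; rw [if_neg h]

/-! ### the board -/

/-- The `r × c` board: the cells `(i, j)` with `1 ≤ i ≤ r` and `1 ≤ j ≤ c`. -/
noncomputable def board (r c : ℕ) : Finset (ℤ × ℤ) := Finset.Icc 1 (r : ℤ) ×ˢ Finset.Icc 1 (c : ℤ)

section

variable (p q : ℕ)

def w1 (x : Fin (p + 1) × Fin (q + 1)) : ℤ × ℤ := (2 * (x.1 : ℕ) + 1, 2 * (x.2 : ℕ) + 1)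
def w0 (x : Fin p × Fin q) : ℤ × ℤ := (2 * (x.1 : ℕ) + 2, 2 * (x.2 : ℕ) + 2)
def bh (x : Fin p × Fin (q + 1)) : ℤ × ℤ := (2 * (x.1 : ℕ) + 2, 2 * (x.2 : ℕ) + 1)
def bv (x : Fin (p + 1) × Fin q) : ℤ × ℤ := (2 * (x.1 : ℕ) + 1, 2 * (x.2 : ℕ) + 2)

/-- black cells -/
abbrev Bl := (Fin p × Fin (q + 1)) ⊕ (Fin (p + 1) × Fin q)

def bb : Bl p q → ℤ × ℤ := Sum.elim (bh p q) (bv p q)

theorem mem_board (r c : ℕ) (x : ℤ × ℤ) : x ∈ board r c ↔ (1 ≤ x.1 ∧ x.1 ≤ r) ∧ (1 ≤ x.2 ∧ x.2 ≤ c) := by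
  unfold board
  rw [mem_product, mem_Icc, mem_Icc]

theorem bb_inj : Function.Injective (bb p q) := by
  rintro (⟨⟨a, ha⟩, ⟨b, hb⟩⟩ | ⟨⟨a, ha⟩, ⟨b, hb⟩⟩) (⟨⟨c, hc⟩, ⟨d, hd⟩⟩ | ⟨⟨c, hc⟩, ⟨d, hd⟩⟩) h <;>
    simp only [bb, bh, bv, Sum.elim_inl, Sum.elim_inr, Prod.mk.injEq] at h
  · have h1 : a = c := by omega
    have h2 : b = d := by omega
    subst h1; subst h2; rfl
  · exfalso; omega
  · exfalso; omega
  · have h1 : a = c := by omega
    have h2 : b = d := by omega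
    subst h1; subst h2; rfl

theorem bb_surj (x y : ℤ) (h : (x, y) ∈ board (2 * p + 1) (2 * q + 1)) (ho : (x + y) % 2 = 1) :
    ∃ b : Bl p q, bb p q b = (x, y) := by
  rw [mem_board] at h
  simp only at h
  push_cast at h
  by_cases hx : x % 2 = 0
  · refine ⟨Sum.inl (⟨(x / 2 - 1).toNat, by omega⟩, ⟨(y / 2).toNat, by omega⟩), ?_⟩
    simp only [bb, bh, Sum.elim_inl, Prod.mk.injEq]
    omega
  · refine ⟨Sum.inr (⟨(x / 2).toNat, by omega⟩, ⟨(y / 2 - 1).toNat, by omega⟩), ?_⟩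
    simp only [bb, bv, Sum.elim_inr, Prod.mk.injEq]
    omega

theorem bb_mem (b : Bl p q) : bb p q b ∈ board (2 * p + 1) (2 * q + 1) := by
  rw [mem_board]
  rcases b with ⟨⟨a, ha⟩, ⟨c, hc⟩⟩ | ⟨⟨a, ha⟩, ⟨c, hc⟩⟩ <;>
    simp only [bb, bh, bv, Sum.elim_inl, Sum.elim_inr] <;> push_cast <;> omega

theorem bb_odd (b : Bl p q) : ((bb p q b).1 + (bb p q b).2) % 2 = 1 := by
  rcases b with ⟨⟨a, ha⟩, ⟨c, hc⟩⟩ | ⟨⟨a, ha⟩, ⟨c, hc⟩⟩ <;>
    simp only [bb, bh, bv, Sum.elim_inl, Sum.elim_inr] <;> omega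

theorem w1_mem (x : Fin (p + 1) × Fin (q + 1)) : w1 p q x ∈ board (2 * p + 1) (2 * q + 1) := by
  rw [mem_board]
  obtain ⟨⟨a, ha⟩, ⟨b, hb⟩⟩ := x
  simp only [w1]; push_cast; omega

theorem w0_mem (x : Fin p × Fin q) : w0 p q x ∈ board (2 * p + 1) (2 * q + 1) := by
  rw [mem_board]
  obtain ⟨⟨a, ha⟩, ⟨b, hb⟩⟩ := x
  simp only [w0]; push_cast; omega

theorem w0_inj : Function.Injective (w0 p q) := by
  rintro ⟨⟨a, ha⟩, ⟨b, hb⟩⟩ ⟨⟨c, hc⟩, ⟨d, hd⟩⟩ h
  simp only [w0, Prod.mk.injEq, Fin.mk.injEq] at h ⊢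
  omega

theorem w1_inj : Function.Injective (w1 p q) := by
  rintro ⟨⟨a, ha⟩, ⟨b, hb⟩⟩ ⟨⟨c, hc⟩, ⟨d, hd⟩⟩ h
  simp only [w1, Prod.mk.injEq, Fin.mk.injEq] at h ⊢
  omega

theorem w1_surj (x y : ℤ) (h : (x, y) ∈ board (2 * p + 1) (2 * q + 1)) (hx : x % 2 = 1) (hy : y % 2 = 1) :
    ∃ b, w1 p q b = (x, y) := by
  rw [mem_board] at h
  simp only at h
  push_cast at h
  refine ⟨(⟨(x / 2).toNat, by omega⟩, ⟨(y / 2).toNat, by omega⟩), ?_⟩
  simp only [w1, Prod.mk.injEq]
  omega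

theorem w0_surj (x y : ℤ) (h : (x, y) ∈ board (2 * p + 1) (2 * q + 1)) (hx : x % 2 = 0) (hy : y % 2 = 0) :
    ∃ b, w0 p q b = (x, y) := by
  rw [mem_board] at h
  simp only at h
  push_cast at h
  refine ⟨(⟨(x / 2 - 1).toNat, by omega⟩, ⟨(y / 2 - 1).toNat, by omega⟩), ?_⟩
  simp only [w0, Prod.mk.injEq]
  omega

/-- black cells of the board -/
noncomputable def Bset : Finset (ℤ × ℤ) := (board (2 * p + 1) (2 * q + 1)).filter fun x => (x.1 + x.2) % 2 = 1

theorem sum_bl (F : ℤ × ℤ → ℤ) : ∑ b : Bl p q, F (bb p q b) = ∑ x ∈ Bset p q, F x := by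
  rw [← Finset.sum_image (f := F) (s := Finset.univ) (g := bb p q) (fun a _ b _ h => bb_inj p q h)]
  congr 1
  ext ⟨x, y⟩
  simp only [mem_image, mem_univ, true_and, Bset, mem_filter]
  constructor
  · rintro ⟨b, hb⟩
    have h1 := bb_mem p q b
    have h2 := bb_odd p q b
    rw [hb] at h1 h2
    exact ⟨h1, h2⟩
  · rintro ⟨h1, h2⟩
    exact bb_surj p q x y h1 h2

/-- the board with a hole -/
noncomputable def RR (h0 : Fin p × Fin q) : Finset (ℤ × ℤ) := board (2 * p + 1) (2 * q + 1) \ {w0 p q h0}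

theorem mem_RR_odd (h0 : Fin p × Fin q) (x y : ℤ) (h : (x, y) ∈ board (2 * p + 1) (2 * q + 1))
    (ho : x % 2 = 1 ∨ y % 2 = 1) : (x, y) ∈ RR p q h0 := by
  unfold RR
  rw [mem_sdiff, mem_singleton]
  refine ⟨h, ?_⟩
  intro hc
  simp only [w0, Prod.mk.injEq] at hc
  omega

theorem mem_RR_w0 (h0 b : Fin p × Fin q) (h : b ≠ h0) : w0 p q b ∈ RR p q h0 := by
  unfold RR
  rw [mem_sdiff, mem_singleton]
  exact ⟨w0_mem p q b, fun hc => h (w0_inj p q hc)⟩

theorem mem_RR_w1 (h0 : Fin p × Fin q) (a : Fin (p + 1) × Fin (q + 1)) : w1 p q a ∈ RR p q h0 :=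
  mem_RR_odd p q h0 _ _ (w1_mem p q a) (Or.inl (by omega))

/-- orthogonality -/
theorem orth (h0 : Fin p × Fin q) (a : Fin (p + 1) × Fin (q + 1)) (b : Fin p × Fin q) (hb : b ≠ h0) :
    ∑ x ∈ Bset p q, kast (RR p q h0) x (w1 p q a) * kast (RR p q h0) x (w0 p q b) = 0 := by
  have ha1 := mem_RR_w1 p q h0 a
  have hb1 := mem_RR_w0 p q h0 b hb
  have ha2 := (mem_board _ _ _).mp (w1_mem p q a)
  have hb2 := (mem_board _ _ _).mp (w0_mem p q b)
  obtain ⟨x, y, hxy⟩ : ∃ x y, w1 p q a = (x, y) := ⟨_, _, rfl⟩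
  obtain ⟨x', y', hxy'⟩ : ∃ x' y', w0 p q b = (x', y') := ⟨_, _, rfl⟩
  have hpar : x % 2 = 1 ∧ y % 2 = 1 ∧ x' % 2 = 0 ∧ y' % 2 = 0 := by
    simp only [w1, w0, Prod.mk.injEq] at hxy hxy'
    omega
  rw [hxy] at ha1 ha2 ⊢
  rw [hxy'] at hb1 hb2 ⊢
  simp only at ha2 hb2 ha1
  by_cases hd : (x' = x + 1 ∨ x' = x - 1) ∧ (y' = y + 1 ∨ y' = y - 1)
  · have m1 : (x', y) ∈ board (2 * p + 1) (2 * q + 1) := by rw [mem_board]; simp only; omega
    have m2 : (x, y') ∈ board (2 * p + 1) (2 * q + 1) := by rw [mem_board]; simp only; omega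
    have hf := kast_face (RR p q h0) x y x' y' hd.1 hd.2 ha1 hb1
      (mem_RR_odd p q h0 _ _ m1 (by omega)) (mem_RR_odd p q h0 _ _ m2 (by omega))
    rw [Finset.sum_eq_add_of_mem (x', y) (x, y') _ _ _ _]
    · exact hf
    · unfold Bset; rw [mem_filter]; exact ⟨m1, by simp only; omega⟩
    · unfold Bset; rw [mem_filter]; exact ⟨m2, by simp only; omega⟩
    · intro hc; simp only [Prod.mk.injEq] at hc; omega
    · rintro ⟨u, v⟩ _ ⟨hc1, hc2⟩
      by_cases h1 : Adj (x, y) (u, v)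
      · by_cases h2 : Adj (x', y') (u, v)
        · exfalso
          unfold Adj at h1 h2
          simp only [ne_eq, Prod.mk.injEq] at h1 h2 hc1 hc2
          omega
        · rw [kast_zero _ _ _ h2, mul_zero]
      · rw [kast_zero _ _ _ h1, zero_mul]
  · refine Finset.sum_eq_zero ?_
    rintro ⟨u, v⟩ _
    by_cases h1 : Adj (x, y) (u, v)
    · by_cases h2 : Adj (x', y') (u, v)
      · exfalso
        unfold Adj at h1 h2
        simp only at h1 h2
        omega
      · rw [kast_zero _ _ _ h2, mul_zero]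
    · rw [kast_zero _ _ _ h1, zero_mul]

theorem diag (h0 b : Fin p × Fin q) :
    (2 : ℤ) ∣ ∑ x ∈ Bset p q, kast (RR p q h0) x (w0 p q b) * kast (RR p q h0) x (w0 p q b) := by
  have hb2 := (mem_board _ _ _).mp (w0_mem p q b)
  have hb3 : (w0 p q b).1 ≤ 2 * p ∧ (w0 p q b).2 ≤ 2 * q ∧ 2 ≤ (w0 p q b).1 ∧ 2 ≤ (w0 p q b).2 := by
    obtain ⟨⟨a, ha⟩, ⟨b, hb⟩⟩ := b
    simp only [w0]; omega
  obtain ⟨x, y, hxy⟩ : ∃ x y, w0 p q b = (x, y) := ⟨_, _, rfl⟩
  have hpar : x % 2 = 0 ∧ y % 2 = 0 := by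
    simp only [w0, Prod.mk.injEq] at hxy
    omega
  rw [hxy] at hb2 hb3 ⊢
  simp only at hb2 hb3
  push_cast at hb2
  let S4 : Finset (ℤ × ℤ) := {(x + 1, y), (x - 1, y), (x, y + 1), (x, y - 1)}
  have hsub : S4 ⊆ Bset p q := by
    rintro ⟨u, v⟩ huv
    simp only [S4, mem_insert, mem_singleton, Prod.mk.injEq] at huv
    unfold Bset
    rw [mem_filter, mem_board]
    simp only
    push_cast
    omega
  have hcard : S4.card = 4 := by
    simp only [S4]
    rw [Finset.card_insert_of_notMem, Finset.card_insert_of_notMem, Finset.card_insert_of_notMem,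
      Finset.card_singleton]
    · simp only [mem_singleton, Prod.mk.injEq]; omega
    · simp only [mem_insert, mem_singleton, Prod.mk.injEq]; omega
    · simp only [mem_insert, mem_singleton, Prod.mk.injEq]; omega
  rw [← Finset.sum_subset hsub]
  · rw [Finset.sum_congr rfl (g := fun _ => (1 : ℤ))]
    · rw [Finset.sum_const, hcard]; norm_num
    · rintro ⟨u, v⟩ huv
      simp only [S4, mem_insert, mem_singleton, Prod.mk.injEq] at huv
      apply kast_sq
      unfold Adj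
      simp only
      omega
  · rintro ⟨u, v⟩ _ huv
    simp only [S4, mem_insert, mem_singleton, Prod.mk.injEq] at huv
    rw [kast_zero, zero_mul]
    unfold Adj
    simp only
    omega

theorem row (h0 : Fin p × Fin q) (b : Bl p q) :
    (2 : ℤ) ∣ ∑ a : Fin (p + 1) × Fin (q + 1), kast (RR p q h0) (bb p q b) (w1 p q a) := by
  have hb2 := (mem_board _ _ _).mp (bb_mem p q b)
  have hb3 := bb_odd p q b
  obtain ⟨x, y, hxy⟩ : ∃ x y, bb p q b = (x, y) := ⟨_, _, rfl⟩
  have hkey : ∃ x1 y1 x2 y2 : ℤ, (x1, y1) ∈ board (2 * p + 1) (2 * q + 1) ∧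
      (x2, y2) ∈ board (2 * p + 1) (2 * q + 1) ∧ x1 % 2 = 1 ∧ x2 % 2 = 1 ∧ y1 % 2 = 1 ∧ y2 % 2 = 1 ∧
      ((x1 = x - 1 ∧ y1 = y ∧ x2 = x + 1 ∧ y2 = y ∧ x % 2 = 0) ∨
        (x1 = x ∧ y1 = y - 1 ∧ x2 = x ∧ y2 = y + 1 ∧ y % 2 = 0)) := by
    rcases b with ⟨⟨a, ha⟩, ⟨c, hc⟩⟩ | ⟨⟨a, ha⟩, ⟨c, hc⟩⟩
    · simp only [bb, bh, Sum.elim_inl, Prod.mk.injEq] at hxy
      refine ⟨x - 1, y, x + 1, y, ?_, ?_, ?_, ?_, ?_, ?_, Or.inl ⟨rfl, rfl, rfl, rfl, ?_⟩⟩ <;>
        first | omega | (rw [mem_board]; simp only; push_cast; omega)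
    · simp only [bb, bv, Sum.elim_inr, Prod.mk.injEq] at hxy
      refine ⟨x, y - 1, x, y + 1, ?_, ?_, ?_, ?_, ?_, ?_, Or.inr ⟨rfl, rfl, rfl, rfl, ?_⟩⟩ <;>
        first | omega | (rw [mem_board]; simp only; push_cast; omega)
  obtain ⟨x1, y1, x2, y2, m1, m2, hx1, hx2, hy1, hy2, hc⟩ := hkey
  obtain ⟨a1, ha1⟩ := w1_surj p q x1 y1 m1 hx1 hy1
  obtain ⟨a2, ha2⟩ := w1_surj p q x2 y2 m2 hx2 hy2
  rw [hxy]
  have hne : a1 ≠ a2 := by
    intro h
    rw [h, ha2, Prod.mk.injEq] at ha1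
    omega
  rw [Fintype.sum_eq_add a1 a2 hne]
  · rw [ha1, ha2]
    have e1 : Adj (x1, y1) (x, y) := by
      unfold Adj; simp only; omega
    have e2 : Adj (x2, y2) (x, y) := by
      unfold Adj; simp only; omega
    have o1 := kast_odd (RR p q h0) _ _ e1
    have o2 := kast_odd (RR p q h0) _ _ e2
    omega
  · rintro a ⟨hna1, hna2⟩
    apply kast_zero
    intro hadj
    have h3 : w1 p q a ≠ (x1, y1) := by rw [← ha1]; exact fun h => hna1 (w1_inj p q h)
    have h4 : w1 p q a ≠ (x2, y2) := by rw [← ha2]; exact fun h => hna2 (w1_inj p q h)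
    unfold Adj at hadj
    simp only [w1, ne_eq, Prod.mk.injEq] at hadj h3 h4
    omega

/-- the index type of the columns -/
abbrev Ix (h0 : Fin p × Fin q) := (Fin (p + 1) × Fin (q + 1)) ⊕ {x : Fin p × Fin q // x ≠ h0}

theorem exists_equiv (h0 : Fin p × Fin q) : Nonempty (Ix p q h0 ≃ Bl p q) := by
  refine ⟨Fintype.equivOfCardEq ?_⟩
  have hp : 0 < p * q := by
    have h1 := h0.1.2
    have h2 := h0.2.2
    exact Nat.mul_pos (by omega) (by omega)
  rw [Fintype.card_sum, Fintype.card_sum, Fintype.card_subtype_compl]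
  simp only [Fintype.card_prod, Fintype.card_fin, Fintype.card_subtype_eq]
  have e1 : (p + 1) * (q + 1) = p * q + p + q + 1 := by ring
  have e2 : p * (q + 1) = p * q + p := by ring
  have e3 : (p + 1) * q = p * q + q := by ring
  rw [e1, e2, e3]
  omega

theorem eight_dvd_sq (a : ℤ) (h : (8 : ℤ) ∣ a ^ 2) : (4 : ℤ) ∣ a := by
  have h2 : (2 : ℤ) ∣ a := by
    have : (2 : ℤ) ∣ a ^ 2 := dvd_trans (by norm_num) h
    exact Int.prime_two.dvd_of_dvd_pow this
  obtain ⟨b, rfl⟩ := h2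
  have h3 : (2 : ℤ) ∣ b ^ 2 := by
    obtain ⟨k, hk⟩ := h
    refine ⟨k, ?_⟩
    have : 4 * b ^ 2 = 4 * (2 * k) := by linarith [hk, (by ring : (2 * b) ^ 2 = 4 * b ^ 2)]
    linarith
  have h4 : (2 : ℤ) ∣ b := Int.prime_two.dvd_of_dvd_pow h3
  obtain ⟨k, hk⟩ := h4
  exact ⟨k, by rw [hk]; ring⟩

theorem main (h0 : Fin p × Fin q) (hev : Even (p * q)) : 4 ∣ numTilings (RR p q h0) := by
  obtain ⟨ψ⟩ := exists_equiv p q h0
  set R := RR p q h0 with hR
  let f : Ix p q h0 → ℤ × ℤ := Sum.elim (w1 p q) (fun x => w0 p q x.1)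
  let g : Ix p q h0 → ℤ × ℤ := fun i => bb p q (ψ i)
  let M : Matrix (Ix p q h0) (Ix p q h0) ℤ := Matrix.of fun i j => kast R (g i) (f j)
  have hnum : numTilings R = M.det.natAbs := by
    refine numTilings_eq 0 R f g ?_ ?_ ?_ ?_ (fun _ => 1) (fun _ => 1) M ?_
    · rintro (a | ⟨a, ha⟩) (b | ⟨b, hb⟩) h
      · exact congrArg _ (w1_inj p q h)
      · exfalso
        simp only [f, Sum.elim_inl, Sum.elim_inr, w1, w0, Prod.mk.injEq] at h
        omega
      · exfalso
        simp only [f, Sum.elim_inl, Sum.elim_inr, w1, w0, Prod.mk.injEq] at h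
        omega
      · have := w0_inj p q h
        simp only at this
        subst this; rfl
    · intro a b h
      exact ψ.injective (bb_inj p q h)
    · rintro ⟨x, y⟩
      rw [Int.even_iff]
      constructor
      · rintro ⟨a | ⟨a, ha⟩, h⟩
        · have h1 := mem_RR_w1 p q h0 a
          rw [← h]
          refine ⟨h1, ?_⟩
          simp only [f, Sum.elim_inl, w1]; omega
        · have h1 := mem_RR_w0 p q h0 a ha
          rw [← h]
          refine ⟨h1, ?_⟩
          simp only [f, Sum.elim_inr, w0]; omega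
      · rintro ⟨h1, h2⟩
        have hb : (x, y) ∈ board (2 * p + 1) (2 * q + 1) := (mem_sdiff.mp h1).1
        have hn : (x, y) ≠ w0 p q h0 := by
          have := (mem_sdiff.mp h1).2
          rwa [mem_singleton] at this
        simp only at h2
        by_cases hx : x % 2 = 1
        · obtain ⟨a, ha⟩ := w1_surj p q x y hb hx (by omega)
          exact ⟨Sum.inl a, ha⟩
        · obtain ⟨a, ha⟩ := w0_surj p q x y hb (by omega) (by omega)
          refine ⟨Sum.inr ⟨a, ?_⟩, ha⟩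
          rintro rfl
          exact hn ha.symm
    · rintro ⟨x, y⟩
      rw [Int.even_iff]
      constructor
      · rintro ⟨i, h⟩
        have h1 := bb_mem p q (ψ i)
        have h2 := bb_odd p q (ψ i)
        change bb p q (ψ i) = (x, y) at h
        rw [h] at h1 h2
        simp only at h2 ⊢
        exact ⟨mem_RR_odd p q h0 _ _ h1 (by omega), by omega⟩
      · rintro ⟨h1, h2⟩
        have hb : (x, y) ∈ board (2 * p + 1) (2 * q + 1) := (mem_sdiff.mp h1).1
        simp only at h2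
        obtain ⟨b, hb2⟩ := bb_surj p q x y hb (by omega)
        refine ⟨ψ.symm b, ?_⟩
        simp only [g, Equiv.apply_symm_apply]
        exact hb2
    · intro i j
      simp [M]
  let K1 : Matrix (Ix p q h0) (Fin (p + 1) × Fin (q + 1)) ℤ := Matrix.of fun i a => kast R (g i) (w1 p q a)
  let K0 : Matrix (Ix p q h0) {x : Fin p × Fin q // x ≠ h0} ℤ := Matrix.of fun i a => kast R (g i) (w0 p q a)
  have hsum : ∀ F : ℤ × ℤ → ℤ, ∑ i, F (g i) = ∑ x ∈ Bset p q, F x := by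
    intro F
    rw [← sum_bl p q F, ← Equiv.sum_comp ψ (fun b => F (bb p q b))]
  have hblock : Mᵀ * M = Matrix.fromBlocks (K1ᵀ * K1) 0 0 (K0ᵀ * K0) := by
    ext (a | a) (b | b)
    · simp only [Matrix.mul_apply, Matrix.transpose_apply, Matrix.fromBlocks_apply₁₁]
      rfl
    · simp only [Matrix.mul_apply, Matrix.transpose_apply, Matrix.fromBlocks_apply₁₂, Matrix.zero_apply]
      exact (hsum fun x => kast R x (w1 p q a) * kast R x (w0 p q b)).trans (orth p q h0 a b b.2)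
    · simp only [Matrix.mul_apply, Matrix.transpose_apply, Matrix.fromBlocks_apply₂₁, Matrix.zero_apply]
      rw [← orth p q h0 b a a.2, ← hsum]
      refine Finset.sum_congr rfl fun i _ => ?_
      simp only [M, f, Matrix.of_apply, Sum.elim_inl, Sum.elim_inr]
      ring
    · simp only [Matrix.mul_apply, Matrix.transpose_apply, Matrix.fromBlocks_apply₂₂]
      rfl
  have hdet : M.det ^ 2 = (K1ᵀ * K1).det * (K0ᵀ * K0).det := by
    rw [← Matrix.det_fromBlocks_zero₂₁, ← hblock, Matrix.det_mul, Matrix.det_transpose, pow_two]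
  have h4 : (4 : ℤ) ∣ (K1ᵀ * K1).det := four_dvd_gram K1 (fun i => row p q h0 (ψ i))
  have h2 : (2 : ℤ) ∣ (K0ᵀ * K0).det := by
    refine two_dvd_det _ ?_ ?_ ?_
    · intro x y
      simp only [Matrix.mul_apply, Matrix.transpose_apply]
      exact Finset.sum_congr rfl fun i _ => mul_comm _ _
    · intro x
      simp only [Matrix.mul_apply, Matrix.transpose_apply]
      have := diag p q h0 x
      rw [← hsum] at this
      exact this
    · rw [Fintype.card_subtype_compl]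
      simp only [Fintype.card_prod, Fintype.card_fin, Fintype.card_subtype_eq]
      have hp : 0 < p * q := by
        have h1 := h0.1.2
        have h2 := h0.2.2
        exact Nat.mul_pos (by omega) (by omega)
      rw [Nat.even_iff] at hev
      rw [Nat.odd_iff]
      omega
  have h8 : (8 : ℤ) ∣ M.det ^ 2 := by
    rw [hdet]
    exact (by norm_num : (8 : ℤ) = 4 * 2) ▸ mul_dvd_mul h4 h2
  have h5 := eight_dvd_sq _ h8
  rw [hnum]
  exact Int.natCast_dvd.mp h5

end

/-- `a r c h`: the number of domino tilings of the `r × c` board with the cell `h` removed, that is,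
the number of perfect matchings of the grid graph `G_{r,c}` without the vertex `h`. -/
noncomputable def a (r c : ℕ) (h : ℤ × ℤ) : ℕ := numTilings (board r c \ {h})

/-- For odd `r, c` which are not both congruent to `3` modulo `4` and every even white vertex
`(i, j)` (`i`, `j` even) of the `r × c` grid, the number `a(r,c;(i,j))` is divisible by `4`. -/
theorem result (r c : ℕ) (hr : Odd r) (hc : Odd c) (h3 : ¬ (r % 4 = 3 ∧ c % 4 = 3))
    (i j : ℤ) (hi : 1 ≤ i ∧ i ≤ r) (hj : 1 ≤ j ∧ j ≤ c) (hie : Even i) (hje : Even j) :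
    4 ∣ a r c (i, j) := by
  obtain ⟨p, rfl⟩ := hr
  obtain ⟨q, rfl⟩ := hc
  rw [Int.even_iff] at hie hje
  push_cast at hi hj
  obtain ⟨h0, hh0⟩ := w0_surj p q i j (by rw [mem_board]; simp only; push_cast; omega) hie hje
  have hev : Even (p * q) := by
    rw [Nat.even_mul, Nat.even_iff, Nat.even_iff]
    by_contra hcon
    apply h3
    omega
  have h := main p q h0 hev
  unfold RR at h
  rw [hh0] at h
  exact h

end Pool.Agent.Results.MP_bab3d5_co.HoleDivFour
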